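import Pool.Agent.Helper49.PS.Final

/-!
# Vanishing path density in limit profiles of trees: the sharp rate

For every `k ≥ 4` the star density in a limit profile of trees is at least `1 - C p ^ a`, where `p`
is the path density and `a = rate k`: `rate 4 = 1`, `rate 5 = 1 / 3` and `rate k = 1 / (k - 2) ^ 2`
for `k ≥ 6`; the exponent is optimal for every `k`.

Upper bound. In a tree with degrees `d` the number of the `k`-vertex subtrees which are not stars is
at most a constant times the sum, over pairs of adjacent vertices `u, v`, of `(d u) ^ (k-3) * d v`
and of `d u` times the number of vertices at distance two; by Hoelder and induction on the generations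
this is at most `S * (n / S) ^ (1 / (k-2)^2)`, where `S` is the sum of the `d ^ (k-1)`.
The number of paths is at least `n / k` if the diameter is at least `2 (k-1)`, and for bounded
diameter `n / S → 0`. For `k = 5` two legs of length two form a path, which gives the better rate.

Lower bound. A long path with `N` hubs; every hub has `D` further neighbours, `M` of them have `L`
further neighbours.
-/

namespace Pool.Agent.Results.MP_b90d6a_co.SharpRate

open Pool.Agent.Helper49.PS

/-- The sharp rate at which a small path density forces the star density to one. -/
theorem result (k : ℕ) (hk : 4 ≤ k) :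
    (∃ C : ℝ, ∀ p ∈ limitSet k,
      1 - p (starTree k hk) ≤ C * p (pathTree k hk) ^ rate k) ∧
    (∃ c : ℝ, 0 < c ∧ ∀ δ : ℝ, 0 < δ → δ ≤ 1 → ∃ p ∈ limitSet k,
      p (pathTree k hk) ≤ δ ∧ c * δ ^ rate k ≤ 1 - p (starTree k hk)) :=
  ⟨upper k hk, lower k hk⟩

end Pool.Agent.Results.MP_b90d6a_co.SharpRate
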